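import Mathlib
import Pool.Agent.H15.Sym

set_option autoImplicit false

namespace Pool.Agent.Results.MP_5c36f9_al.Symmetric

open Set Cardinal Equiv Filter Topology

universe u

variable {G : Type u} [Group G]

/-- Slowly oscillating functions on the finitary ballean. -/
def SO (f : G → ℝ) : Prop :=
  ∀ F : Set G, F.Finite → ∀ ε > 0, ∃ B : Set G, B.Finite ∧
    ∀ x ∉ B, Metric.diam (f '' insert x ((· * x) '' F)) < ε

/-- Functions that are constant at infinity. -/
def ConstInf (f : G → ℝ) : Prop :=
  ∃ c : ℝ, ∀ O ∈ 𝓝 c, (f ⁻¹' O)ᶜ.Finite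

/-- Every slowly oscillating function on a symmetric group is constant at infinity. -/
theorem result (X : Type u) (f : Perm X → ℝ) (hf : SO f) : ConstInf f := by
  cases finite_or_infinite X
  · exact ⟨0, fun _ _ => toFinite _⟩
  have k : ∀ C > 0, ∃ v, {x | 26 * C < |f x - v|}.Finite := fun C hC => by
    obtain ⟨v, hv⟩ := Pool.Agent.H15.Sym.main le_rfl aleph0_lt_continuum (f := f) (fun g => by
      obtain ⟨B, hB, h⟩ := hf {g} (finite_singleton g) C hC
      refine lt_aleph0_iff_set_finite.2 (hB.subset fun x hx => by_contra fun n => ?_)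
      have := h x n
      rw [image_singleton, image_pair, Metric.diam_pair, dist_comm] at this
      exact lt_asymm this hx) hC
    exact ⟨v, lt_aleph0_iff_set_finite.1 hv⟩
  have : Infinite (Perm X) := infinite_iff.2 (by
    rw [mk_perm_eq_two_power]; exact (aleph0_le_mk X).trans (cantor _).le)
  obtain ⟨c, hc⟩ := CompleteSpace.complete (f := map f cofinite) (Metric.cauchy_iff.2
    ⟨inferInstance, fun ε h => by
      obtain ⟨v, hv⟩ := k (ε / 100) (by positivity)
      refine ⟨Metric.closedBall v (26 * (ε / 100)), hv.subset fun x hx =>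
        (not_le.1 (show ¬dist (f x) v ≤ 26 * (ε / 100) from hx) :),
        fun x hx y hy => (dist_triangle_right x y v).trans_lt ?_⟩
      rw [Metric.mem_closedBall] at hx hy
      linarith⟩)
  exact ⟨c, fun O hO => hc hO⟩

end Pool.Agent.Results.MP_5c36f9_al.Symmetric
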